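import Pool.Agent.H385.SI.SMA
import Pool.Agent.H560.AR.Stm

/-!
# Smooth polynomials in some class of a family (task SMC, for helper560)

The proof follows helper113's proof of SM and helper385's proof of SMA.
-/

set_option autoImplicit false
set_option linter.unusedSectionVars false

open Finset Polynomial
open scoped Classical
open Pool.Agent.H694.Typ
open Pool.Agent.H560.SI
open Pool.Agent.H560.AR
open Pool.Agent.H113.SI
open Pool.Agent.H523.RH (Phi)
open Pool.Agent.H341R2.Sharp (Mon mem_Mon)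

namespace Pool.Agent.H694.AR

variable {K : Type} [Field K] [Fintype K]

/-- the squarefree monic polynomials of degree `j` coprime to `M` -/
noncomputable def Qc (K : Type) [Field K] [Fintype K] (M : K[X]) (j : ℕ) : Finset K[X] :=
  (Mn K j).filter (fun w => Squarefree w ∧ IsCoprime w M)

theorem mem_Qc {M : K[X]} {j : ℕ} {w : K[X]} :
    w ∈ Qc K M j ↔ w ∈ Qn K j ∧ IsCoprime w M := by
  unfold Qc Qn
  rw [mem_filter, mem_filter]
  tauto

theorem Mon_eq (n : ℕ) : Mon K n = Mn K n := by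
  ext f
  rw [mem_Mon, mem_Mn]

theorem Phi_le (M : K[X]) : (Phi M 0 : ℝ) ≤ (Fintype.card K : ℝ) ^ M.natDegree := by
  have h : Phi M 0 ≤ Fintype.card K ^ M.natDegree := by
    unfold Phi
    rw [← card_Mn (k := K) M.natDegree, Mon_eq, add_zero]
    exact card_le_card (filter_subset _ _)
  exact_mod_cast h

theorem Phi_pos {M : K[X]} (hM : M.Monic) : 0 < Phi M 0 := by
  unfold Phi
  rw [card_pos, add_zero]
  by_cases h0 : M.natDegree = 0
  · have h1 : M = 1 := hM.natDegree_eq_zero.1 h0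
    refine ⟨1, ?_⟩
    rw [mem_filter, mem_Mon, h0]
    exact ⟨⟨monic_one, natDegree_one⟩, isCoprime_one_left⟩
  · refine ⟨M + 1, ?_⟩
    have hlt : (1 : K[X]).degree < M.degree := by
      rw [degree_one, degree_eq_natDegree hM.ne_zero]
      have : 0 < M.natDegree := Nat.pos_of_ne_zero h0
      exact_mod_cast this
    rw [mem_filter, mem_Mon]
    refine ⟨⟨hM.add_of_left hlt, natDegree_add_eq_left_of_degree_lt hlt⟩, ?_⟩
    exact ⟨1, -1, by ring⟩

/-- the quotient class -/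
theorem exists_T {M S w : K[X]} {N j : ℕ} (hM : M.Monic) (hw : IsCoprime w M)
    (hS : IsCoprime S M) (hj : M.natDegree + j ≤ N) :
    ∃ T : K[X], T.Monic ∧ T.natDegree = N - j ∧ IsCoprime T M ∧ M ∣ w * T - S := by
  obtain ⟨u, v, huv⟩ := hw
  have hMX : (M * X ^ (N - j - M.natDegree)).Monic := hM.mul (monic_X_pow _)
  have hMd : (M * X ^ (N - j - M.natDegree)).natDegree = N - j := by
    rw [hM.natDegree_mul (monic_X_pow _), natDegree_X_pow]
    omega
  have hlt : ((u * S) %ₘ M).degree < (M * X ^ (N - j - M.natDegree)).degree := by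
    refine (degree_modByMonic_lt _ hM).trans_le ?_
    rw [degree_eq_natDegree hM.ne_zero, degree_eq_natDegree hMX.ne_zero, hMd]
    have : M.natDegree ≤ N - j := by omega
    exact_mod_cast this
  have hdvd : M ∣ w * (M * X ^ (N - j - M.natDegree) + (u * S) %ₘ M) - S := by
    have h1 := modByMonic_add_div (u * S) M
    refine ⟨w * X ^ (N - j - M.natDegree) - w * ((u * S) /ₘ M) - v * S, ?_⟩
    linear_combination w * h1 + S * huv
  refine ⟨M * X ^ (N - j - M.natDegree) + (u * S) %ₘ M, hMX.add_of_left hlt, ?_, ?_, hdvd⟩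
  · rw [natDegree_add_eq_left_of_degree_lt hlt, hMd]
  · obtain ⟨c, hc⟩ := hdvd
    have h2 : IsCoprime (w * (M * X ^ (N - j - M.natDegree) + (u * S) %ₘ M)) M := by
      have : w * (M * X ^ (N - j - M.natDegree) + (u * S) %ₘ M) = S + M * c := by
        linear_combination hc
      rw [this]
      exact hS.add_mul_left_left c
    exact (IsCoprime.mul_left_iff.1 h2).2

/-- few irreducible polynomials of given degree divide `M` -/
theorem card_irn_dvd {M : K[X]} (hM : M.Monic) {a : ℕ} (ha : 1 ≤ a) :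
    ((Irn K a).filter (fun P => P ∣ M)).card ≤ M.natDegree := by
  set s := (Irn K a).filter (fun P => P ∣ M) with hs
  have h1 : ∏ P ∈ s, P ∣ M := by
    apply Finset.prod_dvd_of_coprime
    · intro P hP Q hQ hPQ
      have hP' := mem_Irn.1 (mem_filter.1 (mem_coe.1 hP)).1
      have hQ' := mem_Irn.1 (mem_filter.1 (mem_coe.1 hQ)).1
      refine (hP'.2.2.coprime_iff_not_dvd).2 fun h => hPQ ?_
      exact eq_of_monic_of_associated hP'.1 hQ'.1 (hP'.2.2.associated_of_dvd hQ'.2.2 h)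
    · intro P hP
      exact (mem_filter.1 hP).2
  have h2 := natDegree_le_of_dvd h1 hM.ne_zero
  rw [natDegree_prod_of_monic _ _ fun P hP => (mem_Irn.1 (mem_filter.1 hP).1).1] at h2
  rw [sum_congr rfl fun P hP => (mem_Irn.1 (mem_filter.1 hP).1).2.1, sum_const, smul_eq_mul] at h2
  exact (Nat.le_mul_of_pos_right _ ha).trans h2

theorem irn_lower_c {M : K[X]} (hM : M.Monic) {a N : ℕ} (ha : 4 ≤ a) (haN : a ≤ N)
    (hMN : M.natDegree ≤ N) (h4 : 4 * (N : ℝ) ^ 2 ≤ 2 ^ a) :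
    (Fintype.card K : ℝ) ^ a / (4 * N) ≤
      (((Irn K a).filter (fun P => IsCoprime P M)).card : ℝ) := by
  have hq := q_ge (k := K)
  have hN0 : (0 : ℝ) < N := by exact_mod_cast (show 0 < N by omega)
  have h1 := irn_lower (K := K) ha haN
  have h2 : (Irn K a).card = ((Irn K a).filter (fun P => P ∣ M)).card +
      ((Irn K a).filter (fun P => IsCoprime P M)).card := by
    rw [← Finset.card_filter_add_card_filter_not (s := Irn K a) (fun P => P ∣ M)]
    congr 1
    apply congrArg card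
    apply filter_congr
    intro P hP
    exact (mem_Irn.1 hP).2.2.coprime_iff_not_dvd.symm
  have h3 := card_irn_dvd hM (a := a) (by omega)
  have h5 : ((Irn K a).card : ℝ) ≤ N + (((Irn K a).filter (fun P => IsCoprime P M)).card : ℝ) := by
    rw [h2]
    push_cast
    have : ((((Irn K a).filter (fun P => P ∣ M)).card : ℕ) : ℝ) ≤ N := by
      exact_mod_cast h3.trans hMN
    linarith
  have h6 : (2 : ℝ) ^ a ≤ (Fintype.card K : ℝ) ^ a := pow_le_pow_left₀ (by norm_num) hq a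
  have h7 : (N : ℝ) ≤ (Fintype.card K : ℝ) ^ a / (4 * N) := by
    rw [le_div_iff₀ (by positivity)]
    nlinarith
  have h8 : (Fintype.card K : ℝ) ^ a / (2 * N) = (Fintype.card K : ℝ) ^ a / (4 * N) +
      (Fintype.card K : ℝ) ^ a / (4 * N) := by
    field_simp
    norm_num
  linarith

/-- the lower bound for one `w` -/
theorem perwC {r : ℕ} {C : ℝ} (hC : 0 < C)
    (hP : ∀ (N : ℕ) (a : Fin r → ℕ) (M : K[X]) (ι : Type) (I : Finset ι) (S : ι → K[X]),
      (∀ i, 1 ≤ a i) → ∑ i, a i = N → M.Monic → M.natDegree ≤ N →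
      (∀ i ∈ I, (S i).Monic ∧ (S i).natDegree = N ∧ IsCoprime (S i) M) →
      |(∑ j ∈ I, (((Fintype.piFinset fun i => Irn K (a i)).filter
          (fun P => M ∣ ∏ i, P i - S j)).card : ℝ)) -
        I.card * (∏ i, (((Irn K (a i)).filter (fun P => IsCoprime P M)).card : ℝ)) / Phi M 0| ≤
        (C * N) ^ r * (Fintype.card K : ℝ) ^ ((N : ℝ) / 2) * Real.sqrt (PrC I S M))
    {N j : ℕ} (a : Fin r → ℕ) (ha : ∀ i, 4 ≤ a i) (ha2 : ∀ i, 4 * (N : ℝ) ^ 2 ≤ 2 ^ a i)
    (haj : ∑ i, a i + j = N) {M : K[X]} (hM : M.Monic) (hMj : M.natDegree + j ≤ N)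
    {ι : Type} (I : Finset ι) (S : ι → K[X])
    (hS : ∀ i ∈ I, (S i).Monic ∧ (S i).natDegree = N ∧ IsCoprime (S i) M) {w : K[X]}
    (hw : IsCoprime w M) :
    I.card * ((Fintype.card K : ℝ) ^ (N - j) / (4 * N) ^ r / Phi M 0) -
      (C * N) ^ r * (Fintype.card K : ℝ) ^ (((N - j : ℕ) : ℝ) / 2) * Real.sqrt (PrC I S M) ≤
      ∑ k ∈ I, (((Fintype.piFinset fun i => Irn K (a i)).filter
        (fun P => M ∣ w * ∏ i, P i - S k)).card : ℝ) := by
  have hq := q_ge (k := K)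
  have hPhi : (0 : ℝ) < Phi M 0 := by exact_mod_cast Phi_pos hM
  have hT : ∀ k : ι, ∃ T : K[X], k ∈ I → (T.Monic ∧ T.natDegree = N - j ∧ IsCoprime T M ∧
      M ∣ w * T - S k) := by
    intro k
    by_cases hk : k ∈ I
    · obtain ⟨T, hT⟩ := exists_T hM hw (hS k hk).2.2 hMj
      exact ⟨T, fun _ => hT⟩
    · exact ⟨0, fun h => absurd h hk⟩
  choose T hT using hT
  have h1 := hP (N - j) a M ι I T (fun i => le_trans (by norm_num) (ha i)) (by omega) hM
    (by omega) (fun i hi => ⟨(hT i hi).1, (hT i hi).2.1, (hT i hi).2.2.1⟩)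
  have h2 : ∑ k ∈ I, (((Fintype.piFinset fun i => Irn K (a i)).filter
      (fun P => M ∣ ∏ i, P i - T k)).card : ℝ) ≤
      ∑ k ∈ I, (((Fintype.piFinset fun i => Irn K (a i)).filter
        (fun P => M ∣ w * ∏ i, P i - S k)).card : ℝ) := by
    refine sum_le_sum fun k hk => ?_
    have : ((Fintype.piFinset fun i => Irn K (a i)).filter (fun P => M ∣ ∏ i, P i - T k)).card ≤
        ((Fintype.piFinset fun i => Irn K (a i)).filter
          (fun P => M ∣ w * ∏ i, P i - S k)).card := by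
      apply card_le_card
      intro P hPP
      rw [mem_filter] at hPP ⊢
      refine ⟨hPP.1, ?_⟩
      have e : w * ∏ i, P i - S k = w * (∏ i, P i - T k) + (w * T k - S k) := by ring
      rw [e]
      exact dvd_add (hPP.2.mul_left w) (hT k hk).2.2.2
    exact_mod_cast this
  refine le_trans ?_ h2
  have h3 := (abs_le.1 h1).1
  have hsum : ∑ i, a i = N - j := by omega
  have h4 : (Fintype.card K : ℝ) ^ (N - j) / (4 * N) ^ r ≤
      ∏ i, (((Irn K (a i)).filter (fun P => IsCoprime P M)).card : ℝ) := by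
    have h5 : ∏ i : Fin r, ((Fintype.card K : ℝ) ^ (a i) / (4 * N)) ≤
        ∏ i, (((Irn K (a i)).filter (fun P => IsCoprime P M)).card : ℝ) := by
      refine prod_le_prod (fun i _ => by positivity) fun i _ =>
        irn_lower_c hM (ha i) ?_ (by omega) (ha2 i)
      have := Finset.single_le_sum (f := a) (fun _ _ => Nat.zero_le _) (Finset.mem_univ i)
      omega
    rw [prod_div_distrib, prod_pow_eq_pow_sum, hsum, prod_const, Finset.card_univ,
      Fintype.card_fin] at h5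
    exact h5
  have h6 : I.card * ((Fintype.card K : ℝ) ^ (N - j) / (4 * N) ^ r / Phi M 0) ≤
      I.card * (∏ i, (((Irn K (a i)).filter (fun P => IsCoprime P M)).card : ℝ)) / Phi M 0 := by
    rw [mul_div_assoc]
    exact mul_le_mul_of_nonneg_left (div_le_div_of_nonneg_right h4 hPhi.le) (Nat.cast_nonneg _)
  have h7 : (C * ((N - j : ℕ) : ℝ)) ^ r * (Fintype.card K : ℝ) ^ (((N - j : ℕ) : ℝ) / 2) *
      Real.sqrt (PrC I T M) ≤
      (C * N) ^ r * (Fintype.card K : ℝ) ^ (((N - j : ℕ) : ℝ) / 2) * Real.sqrt (PrC I S M) := by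
    have e1 : ((N - j : ℕ) : ℝ) ≤ N := by exact_mod_cast Nat.sub_le _ _
    have e2 : Real.sqrt (PrC I T M) ≤ Real.sqrt (PrC I S M) := by
      apply Real.sqrt_le_sqrt
      have : PrC I T M ≤ PrC I S M := by
        unfold PrC
        refine card_le_card ?_
        rintro ⟨i, k⟩ h
        rw [mem_filter, mem_product] at h ⊢
        refine ⟨h.1, ?_⟩
        obtain ⟨⟨hi, hk⟩, hd⟩ := h
        have e : S i - S k = (w * (T i - T k) + (w * T k - S k)) - (w * T i - S i) := by ring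
        have hd' : M ∣ T i - T k := hd
        have hi' : i ∈ I := hi
        have hk' : k ∈ I := hk
        show M ∣ S i - S k
        rw [e]
        exact dvd_sub (dvd_add (hd'.mul_left w) (hT k hk').2.2.2) (hT i hi').2.2.2
      exact_mod_cast this
    gcongr
  linarith

/-- the arithmetic of the parameters -/
theorem paramsC {η δ : ℝ} (hη : 0 < η) (hδ : 0 < δ) : ∃ (s : ℕ) (ν : ℝ), 0 < ν ∧
    ∃ n₀ : ℕ, ∀ N : ℕ, n₀ ≤ N → ∃ B l : ℕ, 4 ≤ B ∧ 1 ≤ l ∧ l ≤ B ∧
      B + l * ∑ i ∈ range (s + 1), i + (l - 1) = N / (s + 1) ∧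
      ((B + (s + 1) * ((s + 1) * l) : ℕ) : ℝ) ≤ η * N ∧ (l : ℝ) ≤ δ * N ∧
      4 * (N : ℝ) ^ 2 ≤ 2 ^ B ∧ ν / 2 * N ≤ l := by
  obtain ⟨s, hs⟩ : ∃ s : ℕ, 2 / η ≤ (s + 1 : ℕ) :=
    ⟨⌈2 / η⌉₊, by push_cast; linarith [Nat.le_ceil (2 / η)]⟩
  obtain ⟨r, hr⟩ : ∃ r : ℕ, r = s + 1 := ⟨_, rfl⟩
  obtain ⟨T, hT⟩ : ∃ T : ℕ, T = ∑ i ∈ range (s + 1), i := ⟨_, rfl⟩
  have hr1 : (1 : ℝ) ≤ r := by rw [hr]; push_cast; linarith [(Nat.cast_nonneg s : (0 : ℝ) ≤ s)]
  have hrη : 2 ≤ η * r := by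
    rw [← hr, div_le_iff₀ hη] at hs
    linarith
  have hT0 : (0 : ℝ) ≤ T := Nat.cast_nonneg T
  set ν : ℝ := min δ (min (η / (2 * r ^ 2)) (1 / (4 * r * (T + 1)))) with hν
  have hν0 : 0 < ν := by
    rw [hν]
    exact lt_min hδ (lt_min (by positivity) (by positivity))
  have hν1 : ν ≤ δ := min_le_left _ _
  have hν2 : r ^ 2 * ν ≤ η / 2 := by
    calc (r : ℝ) ^ 2 * ν ≤ r ^ 2 * (η / (2 * r ^ 2)) := by
          gcongr
          exact (min_le_right _ _).trans (min_le_left _ _)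
      _ = η / 2 := by field_simp
  have hν3 : r * (T + 1) * ν ≤ 1 / 4 := by
    calc (r : ℝ) * (T + 1) * ν ≤ r * (T + 1) * (1 / (4 * r * (T + 1))) := by
          gcongr
          exact (min_le_right _ _).trans (min_le_right _ _)
      _ = 1 / 4 := by field_simp
  refine ⟨s, ν, hν0, ?_⟩
  -- the exponential beats the square
  have hb : (1 : ℝ) < (2 : ℝ) ^ (1 / (2 * r : ℝ)) := Real.one_lt_rpow (by norm_num) (by positivity)
  have ht := tendsto_pow_const_div_const_pow_of_one_lt 2 hb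
  have hev := ht.eventually_lt_const (u := 1 / 4) (by norm_num)
  obtain ⟨n₁, hn₁⟩ := Filter.eventually_atTop.1 hev
  obtain ⟨n₀, hn₀⟩ := exists_nat_ge (max (n₁ : ℝ) (max (16 * r) (2 / ν)))
  refine ⟨n₀, ?_⟩
  intro N hN
  have hN' : (n₀ : ℝ) ≤ N := by exact_mod_cast hN
  have hX := hn₀.trans hN'
  have hX1 : (n₁ : ℝ) ≤ N := (le_max_left _ _).trans hX
  have hX2 : 16 * (r : ℝ) ≤ N := (le_max_left _ _).trans ((le_max_right _ _).trans hX)
  have hX3 : 2 / ν ≤ N := (le_max_right _ _).trans ((le_max_right _ _).trans hX)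
  rw [div_le_iff₀ hν0] at hX3
  have hN0 : (0 : ℝ) < N := by nlinarith
  set l : ℕ := ⌊ν * N⌋₊ with hl
  have hl1 : (l : ℝ) ≤ ν * N := Nat.floor_le (by positivity)
  have hl2 : ν * N < l + 1 := Nat.lt_floor_add_one _
  have hl3 : (1 : ℝ) < l := by nlinarith
  have hl4 : 1 < l := by exact_mod_cast hl3
  set b : ℕ := N / r with hbd
  have hb1 : r * b ≤ N := Nat.mul_div_le N r
  have hb2 : N < r * b + r := by
    have := Nat.lt_mul_div_succ N (show 0 < r by omega)
    rw [mul_add, mul_one] at this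
    exact this
  have hb1' : (r : ℝ) * b ≤ N := by exact_mod_cast hb1
  have hb2' : (N : ℝ) < r * b + r := by exact_mod_cast hb2
  -- `l (T + 1) ≤ N / (4 r)`
  have hk1 : (r : ℝ) * (l * (T + 1)) ≤ N / 4 := by
    calc (r : ℝ) * (l * (T + 1)) ≤ r * ((ν * N) * (T + 1)) := by gcongr
      _ = (r * (T + 1) * ν) * N := by ring
      _ ≤ 1 / 4 * N := by gcongr
      _ = N / 4 := by ring
  have hk2 : (l : ℝ) * (T + 1) < b := by
    have : (r : ℝ) * (l * (T + 1)) < r * b := by nlinarith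
    exact lt_of_mul_lt_mul_left this (by linarith)
  have hk2' : l * (T + 1) < b := by exact_mod_cast hk2
  obtain ⟨B, hB⟩ : ∃ B : ℕ, B + l * T + (l - 1) = b := by
    refine ⟨b - (l * T + (l - 1)), ?_⟩
    have : l * (T + 1) = l * T + l := by ring
    omega
  have hB1 : (B : ℝ) = b - l * (T + 1) + 1 := by
    have h1 : B + l * (T + 1) = b + 1 := by
      have : l * (T + 1) = l * T + l := by ring
      omega
    have h2 : (B : ℝ) + l * (T + 1) = b + 1 := by exact_mod_cast h1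
    linarith
  -- `B ≥ N / (2 r)`
  have hB2 : (N : ℝ) ≤ 2 * r * B := by
    have : 2 * (r : ℝ) * B = 2 * (r * b) - 2 * (r * (l * (T + 1))) + 2 * r := by
      rw [hB1]; ring
    nlinarith
  have hB3 : (B : ℝ) ≤ b := by
    rw [hB1]
    nlinarith
  refine ⟨B, l, ?_, by omega, ?_, ?_, ?_, ?_, ?_, ?_⟩
  · have : (8 : ℝ) ≤ B := by
      have : 16 * (r : ℝ) ≤ 2 * r * B := hX2.trans hB2
      nlinarith
    have : 8 ≤ B := by exact_mod_cast this
    omega
  · have h1 : (r : ℝ) * l ≤ N / 4 := by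
      refine le_trans ?_ hk1
      have : (l : ℝ) ≤ l * (T + 1) := by nlinarith
      gcongr
    have h2 : (l : ℝ) ≤ B := by
      have : (r : ℝ) * l ≤ r * B := by nlinarith
      exact le_of_mul_le_mul_left this (by linarith)
    exact_mod_cast h2
  · rw [← hT, hB, hbd, hr]
  · rw [← hr]
    push_cast
    have h1 : (r : ℝ) * (r * l) ≤ η / 2 * N := by
      calc (r : ℝ) * (r * l) ≤ r * (r * (ν * N)) := by gcongr
        _ = r ^ 2 * ν * N := by ring
        _ ≤ η / 2 * N := by gcongr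
    have h2 : (B : ℝ) ≤ η / 2 * N := by
      calc (B : ℝ) ≤ b := hB3
        _ = 1 / 2 * (2 * b) := by ring
        _ ≤ 1 / 2 * ((η * r) * b) := by gcongr
        _ = η / 2 * (r * b) := by ring
        _ ≤ η / 2 * N := by gcongr
    linarith
  · exact hl1.trans (by gcongr)
  · have h1 := hn₁ N (by exact_mod_cast hX1)
    have hpos : (0 : ℝ) < ((2 : ℝ) ^ (1 / (2 * r : ℝ))) ^ N := by positivity
    rw [div_lt_iff₀ hpos] at h1
    have h2 : ((2 : ℝ) ^ (1 / (2 * r : ℝ))) ^ N ≤ 2 ^ B := by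
      rw [← Real.rpow_natCast, ← Real.rpow_mul (by norm_num), ← Real.rpow_natCast 2 B]
      apply Real.rpow_le_rpow_of_exponent_le (by norm_num)
      rw [one_div, inv_mul_le_iff₀ (by positivity)]
      exact hB2
    linarith
  · nlinarith

/-- the tuples with a given sum -/
theorem tuples {s B l N : ℕ} (hl : 1 ≤ l) (hB : B + l * ∑ i ∈ range (s + 1), i + (l - 1) = N / (s + 1))
    (f : ℕ → ℝ) (hf : ∀ d, 0 ≤ f d) :
    (l : ℝ) ^ s * ∑ d ∈ range l, f d ≤
      ∑ a ∈ (Fintype.piFinset fun i : Fin (s + 1) => Finset.Ico (B + (i : ℕ) * ((s + 1) * l))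
        (B + ((i : ℕ) + 1) * ((s + 1) * l))).filter (fun a => ∑ i, a i ≤ N ∧ N - ∑ i, a i < l),
        f (N - ∑ i, a i) := by
  classical
  -- the last coordinate
  obtain ⟨tup, htup⟩ : ∃ tup : (Fin s → ℕ) × ℕ → (Fin (s + 1) → ℕ), ∀ x d, tup (x, d) =
      Fin.snoc (α := fun _ => ℕ) (fun i : Fin s => B + (i : ℕ) * ((s + 1) * l) + x i)
        (N - d - ∑ i : Fin s, (B + (i : ℕ) * ((s + 1) * l) + x i)) :=
    ⟨fun p => Fin.snoc (α := fun _ => ℕ) (fun i : Fin s => B + (i : ℕ) * ((s + 1) * l) + p.1 i)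
        (N - p.2 - ∑ i : Fin s, (B + (i : ℕ) * ((s + 1) * l) + p.1 i)), fun x d => rfl⟩
  have hsumT : ∑ i : Fin s, (i : ℕ) * ((s + 1) * l) + s * ((s + 1) * l) =
      (s + 1) * (l * ∑ i ∈ range (s + 1), i) := by
    rw [Finset.sum_range_succ, ← Finset.sum_mul, ← Fin.sum_univ_eq_sum_range (fun i => i) s]
    ring
  have hNdiv := Nat.div_add_mod N (s + 1)
  have hmod := Nat.mod_lt N (show 0 < s + 1 by omega)
  have hkey : ∀ (x : Fin s → ℕ) (d : ℕ), (∀ i, x i < l) → d < l →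
      B + s * ((s + 1) * l) + d + ∑ i : Fin s, (B + (i : ℕ) * ((s + 1) * l) + x i) ≤ N ∧
      N < B + (s + 1) * ((s + 1) * l) + d + ∑ i : Fin s, (B + (i : ℕ) * ((s + 1) * l) + x i) := by
    intro x d hx hd
    have hxs : ∑ i : Fin s, x i ≤ s * (l - 1) := by
      refine (Finset.sum_le_sum (g := fun _ => l - 1) fun i _ => by have := hx i; omega).trans ?_
      rw [Finset.sum_const, Finset.card_univ, Fintype.card_fin, smul_eq_mul]
    have hs1 : ∑ i : Fin s, (B + (i : ℕ) * ((s + 1) * l) + x i) =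
        s * B + ∑ i : Fin s, (i : ℕ) * ((s + 1) * l) + ∑ i : Fin s, x i := by
      rw [Finset.sum_add_distrib, Finset.sum_add_distrib, Finset.sum_const, Finset.card_univ,
        Fintype.card_fin, smul_eq_mul]
    have hm : (s + 1) * (B + l * ∑ i ∈ range (s + 1), i + (l - 1)) = (s + 1) * (N / (s + 1)) := by
      rw [hB]
    have e1 : (s + 1) * (B + l * ∑ i ∈ range (s + 1), i + (l - 1)) =
        s * B + B + (s + 1) * (l * ∑ i ∈ range (s + 1), i) + (s * (l - 1) + (l - 1)) := by ring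
    have e2 : (s + 1) * ((s + 1) * l) = s * ((s + 1) * l) + (s * (l - 1) + (l - 1) + s + 1) := by
      obtain ⟨m, rfl⟩ : ∃ m, l = m + 1 := ⟨l - 1, by omega⟩
      simp only [Nat.add_sub_cancel]
      ring
    rw [hs1]
    constructor
    · omega
    · omega
  have hinner : ∀ (x : Fin s → ℕ) (d : ℕ), (∀ i, x i < l) → d < l →
      ∑ i, tup (x, d) i + d = N := by
    intro x d hx hd
    have h1 := hkey x d hx hd
    rw [htup, Fin.sum_univ_castSucc]
    simp only [Fin.snoc_castSucc, Fin.snoc_last]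
    omega
  set P : Finset ((Fin s → ℕ) × ℕ) := (Fintype.piFinset fun _ : Fin s => range l) ×ˢ (range l)
    with hPdef
  have hmemP : ∀ p ∈ P, (∀ i, p.1 i < l) ∧ p.2 < l := by
    intro p hp
    rw [hPdef, mem_product, Fintype.mem_piFinset] at hp
    exact ⟨fun i => mem_range.1 (hp.1 i), mem_range.1 hp.2⟩
  have hinj : Set.InjOn tup P := by
    rintro ⟨x, d⟩ hp ⟨x', d'⟩ hp' he
    have h1 := hmemP _ (mem_coe.1 hp)
    have h2 := hmemP _ (mem_coe.1 hp')
    have hd1 := hinner x d h1.1 h1.2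
    have hd2 := hinner x' d' h2.1 h2.2
    rw [he] at hd1
    have hdd : d = d' := by omega
    rw [htup, htup] at he
    have hx : x = x' := by
      funext i
      have := congrFun he i.castSucc
      rw [Fin.snoc_castSucc, Fin.snoc_castSucc] at this
      omega
    rw [hx, hdd]
  have hsub : P.image tup ⊆ (Fintype.piFinset fun i : Fin (s + 1) =>
      Finset.Ico (B + (i : ℕ) * ((s + 1) * l)) (B + ((i : ℕ) + 1) * ((s + 1) * l))).filter
        (fun a => ∑ i, a i ≤ N ∧ N - ∑ i, a i < l) := by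
    intro a ha
    rw [mem_image] at ha
    obtain ⟨⟨x, d⟩, hp, rfl⟩ := ha
    have h1 := hmemP _ hp
    have hd1 := hinner x d h1.1 h1.2
    have hk := hkey x d h1.1 h1.2
    have hd := h1.2
    simp only at hd
    rw [mem_filter, Fintype.mem_piFinset]
    refine ⟨fun i => ?_, by omega, by omega⟩
    rw [mem_Ico]
    refine Fin.lastCases ?_ (fun i => ?_) i
    · rw [htup, Fin.snoc_last, Fin.val_last]
      omega
    · rw [htup, Fin.snoc_castSucc, Fin.val_castSucc]
      have hx : x i < l := h1.1 i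
      have : ((i : ℕ) + 1) * ((s + 1) * l) = (i : ℕ) * ((s + 1) * l) + (s * l + l) := by ring
      omega
  calc (l : ℝ) ^ s * ∑ d ∈ range l, f d = ∑ p ∈ P, f p.2 := by
        rw [hPdef, Finset.sum_product]
        have e : ∀ x ∈ Fintype.piFinset (fun _ : Fin s => range l),
            ∑ y ∈ range l, f (x, y).2 = ∑ d ∈ range l, f d := fun x _ => rfl
        rw [Finset.sum_congr rfl e, Finset.sum_const, Fintype.card_piFinset, Finset.prod_const,
          card_range, Finset.card_univ, Fintype.card_fin, nsmul_eq_mul]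
        push_cast
        rfl
    _ = ∑ p ∈ P, f (N - ∑ i, tup p i) := by
        refine Finset.sum_congr rfl fun p hp => ?_
        have h1 := hmemP p hp
        have := hinner p.1 p.2 h1.1 h1.2
        congr 1
        have e : tup (p.1, p.2) = tup p := rfl
        rw [e] at this
        omega
    _ = ∑ a ∈ P.image tup, f (N - ∑ i, a i) := by rw [Finset.sum_image hinj]
    _ ≤ _ := Finset.sum_le_sum_of_subset_of_nonneg hsub fun a _ _ => hf _

/-- the injection into the smooth polynomials of the class -/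
theorem injC {r B l N y : ℕ} {M S : K[X]} {𝒜 : Finset (Fin r → ℕ)}
    (h𝒜 : ∀ a ∈ 𝒜, (∀ i : Fin r, B + (i : ℕ) * l ≤ a i ∧ a i < B + ((i : ℕ) + 1) * l) ∧
      ∑ i, a i ≤ N ∧ N - ∑ i, a i < B)
    (hup : ∀ a ∈ 𝒜, ∀ i, a i ≤ y) (hBy : B ≤ y) :
    (𝒜.sigma fun a => (Qc K M (N - ∑ i, a i)).sigma fun w =>
        (Fintype.piFinset fun i => Irn K (a i)).filter
          (fun P => M ∣ w * ∏ i, P i - S)).card ≤ (SmC K N y M S).card := by
  refine card_le_card_of_injOn (fun t => t.2.1 * ∏ i, t.2.2 i) ?_ ?_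
  · rintro ⟨a, w, P⟩ ht
    rw [mem_coe, mem_sigma] at ht
    obtain ⟨ha, ht⟩ := ht
    rw [mem_sigma] at ht
    obtain ⟨hw, ht⟩ := ht
    rw [mem_filter] at ht
    have h1 := h𝒜 a ha
    have h2 := hup a ha
    have h3 : w * ∏ i, P i ∈ SmI K N 1 y (w * ∏ i, P i) :=
      mem_aux h1.1 h2 (by omega) h1.2.2 (by omega) (mem_Qc.1 hw).1
        (Fintype.mem_piFinset.1 ht.1) (by
          rw [sub_self, degree_zero]
          exact WithBot.bot_lt_coe _)
    unfold SmI at h3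
    rw [mem_filter] at h3
    unfold SmC
    rw [mem_coe, mem_filter]
    exact ⟨h3.1, ht.2, h3.2.2.1, h3.2.2.2⟩
  · rintro ⟨a, w, P⟩ ht ⟨a', w', P'⟩ ht' heq
    rw [mem_coe, mem_sigma] at ht ht'
    obtain ⟨ha, ht⟩ := ht
    obtain ⟨ha', ht'⟩ := ht'
    rw [mem_sigma] at ht ht'
    obtain ⟨hw, ht⟩ := ht
    obtain ⟨hw', ht'⟩ := ht'
    rw [mem_filter] at ht ht'
    have hw1 := mem_Qn.1 (mem_Qc.1 hw').1
    have hB1 := (h𝒜 a' ha').2.2
    obtain ⟨e1, e2, e3⟩ := inj_aux (h𝒜 a ha).1 (h𝒜 a' ha').1 hw1.1 (by rw [hw1.2.1]; exact hB1)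
      (Fintype.mem_piFinset.1 ht.1) (Fintype.mem_piFinset.1 ht'.1) heq
    simp only at e1 e2 e3
    subst e1
    subst e2
    subst e3
    rfl

/-- **Task SMC.** -/
theorem smC (hp : S_prdC) (hphi : S_phi) : S_smC := by
  intro K _ _ η δ hη hδ
  obtain ⟨s, ν, hν, n₁, hn₁⟩ := paramsC hη (half_pos hδ)
  obtain ⟨C, hC, hP⟩ := hp K (s + 1) (by omega)
  obtain ⟨c, hc, hphi⟩ := hphi K
  have hq := q_ge (k := K)
  obtain ⟨n₂, hn₂1, hn₂⟩ := Pool.Agent.H385.SI.errA (r := s + 1) (C := 2 * C) (by positivity) hδ hq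
  refine ⟨c * (ν / 8) ^ (s + 1) / 2, by positivity, max n₁ n₂, ?_⟩
  intro N hN H y M ι I S hI hM hMs hHM hH hy hS hPrC
  obtain ⟨B, l, hB4, hl1, hlB, hBl, hb2, hlδ, h4N, hl⟩ := hn₁ N (le_of_max_le_left hN)
  have hN2 : n₂ ≤ N := le_of_max_le_right hN
  have hN0 : (0 : ℝ) < N := by exact_mod_cast (show 0 < N by omega)
  have hby : B + (s + 1) * ((s + 1) * l) ≤ y := by
    have : ((B + (s + 1) * ((s + 1) * l) : ℕ) : ℝ) ≤ y := hb2.trans hy
    exact_mod_cast this
  have hlH : l ≤ H := by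
    have h1 : (l : ℝ) ≤ H := by nlinarith
    exact_mod_cast h1
  have hPhi : (0 : ℝ) < Phi M 0 := by exact_mod_cast Phi_pos hM
  have hPhi2 := Phi_le M
  obtain ⟨𝒜, h𝒜⟩ : ∃ 𝒜 : Finset (Fin (s + 1) → ℕ), 𝒜 =
      (Fintype.piFinset fun i : Fin (s + 1) => Finset.Ico (B + (i : ℕ) * ((s + 1) * l))
        (B + ((i : ℕ) + 1) * ((s + 1) * l))).filter (fun a => ∑ i, a i ≤ N ∧ N - ∑ i, a i < l) :=
    ⟨_, rfl⟩
  have hmem : ∀ a ∈ 𝒜, (∀ i : Fin (s + 1), B + (i : ℕ) * ((s + 1) * l) ≤ a i ∧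
      a i < B + ((i : ℕ) + 1) * ((s + 1) * l)) ∧ ∑ i, a i ≤ N ∧ N - ∑ i, a i < l := by
    intro a ha
    rw [h𝒜, mem_filter, Fintype.mem_piFinset] at ha
    exact ⟨fun i => mem_Ico.1 (ha.1 i), ha.2⟩
  have hup : ∀ a ∈ 𝒜, ∀ i : Fin (s + 1), a i ≤ y := by
    intro a ha i
    have h1 := ((hmem a ha).1 i).2
    have h2 := Nat.mul_le_mul_right ((s + 1) * l) (show (i : ℕ) + 1 ≤ s + 1 from i.2)
    omega
  -- the count for one `w`
  obtain ⟨X, hX⟩ : ∃ X : ℝ, X = (I.card : ℝ) / (2 * (4 * N) ^ (s + 1) * Phi M 0) := ⟨_, rfl⟩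
  have hX0 : 0 ≤ X := by rw [hX]; positivity
  have hone : ∀ a ∈ 𝒜, ∀ w ∈ Qc K M (N - ∑ i, a i),
      X * (Fintype.card K : ℝ) ^ (N - (N - ∑ i, a i)) ≤
      ∑ k ∈ I, (((Fintype.piFinset fun i => Irn K (a i)).filter
        (fun P => M ∣ w * ∏ i, P i - S k)).card : ℝ) := by
    intro a ha w hw
    obtain ⟨h1, h2, h3⟩ := hmem a ha
    obtain ⟨j, hj⟩ : ∃ j, j = N - ∑ i, a i := ⟨_, rfl⟩
    rw [← hj] at hw ⊢
    have haB : ∀ i, B ≤ a i := fun i => by have := (h1 i).1; omega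
    have h4 := perwC hC hP a (fun i => hB4.trans (haB i))
      (fun i => h4N.trans (pow_le_pow_right₀ (by norm_num) (haB i)))
      (show ∑ i, a i + j = N by omega) hM (by omega) I S hS (mem_Qc.1 hw).2
    have h5 := hn₂ N hN2 H j (PrC I S M) I.card (Nat.cast_nonneg _) (Nat.cast_nonneg _) hPrC
      (by
        have : (j : ℝ) ≤ l := by exact_mod_cast (show j ≤ l by omega)
        linarith) (by omega) (by omega)
    -- compare
    have h6 : (C * N) ^ (s + 1) * (Fintype.card K : ℝ) ^ (((N - j : ℕ) : ℝ) / 2) *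
        Real.sqrt (PrC I S M) ≤
        1 / 2 * (I.card * ((Fintype.card K : ℝ) ^ (H - j) / (4 * N) ^ (s + 1))) := by
      have e1 : (2 * C * (N : ℝ)) ^ (s + 1) = 2 ^ (s + 1) * (C * N) ^ (s + 1) := by
        rw [← mul_pow]; ring
      have e2 : (4 * (N : ℝ)) ^ (s + 1) = 2 ^ (s + 1) * (2 * N) ^ (s + 1) := by
        rw [← mul_pow]; ring
      rw [e1] at h5
      rw [e2]
      have hp2 : (0 : ℝ) < 2 ^ (s + 1) := by positivity
      have h7 : 2 ^ (s + 1) * ((C * N) ^ (s + 1) * (Fintype.card K : ℝ) ^ (((N - j : ℕ) : ℝ) / 2) *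
        Real.sqrt (PrC I S M)) ≤ 2 ^ (s + 1) * (1 / 2 * (I.card *
          ((Fintype.card K : ℝ) ^ (H - j) / (2 ^ (s + 1) * (2 * N) ^ (s + 1))))) := by
        refine le_trans (le_of_eq (by ring)) (h5.trans (le_of_eq ?_))
        field_simp
      exact le_of_mul_le_mul_left h7 hp2
    have h8 : (Fintype.card K : ℝ) ^ (H - j) ≤ (Fintype.card K : ℝ) ^ (N - j) / Phi M 0 := by
      rw [le_div_iff₀ hPhi]
      calc (Fintype.card K : ℝ) ^ (H - j) * Phi M 0 ≤
          (Fintype.card K : ℝ) ^ (H - j) * (Fintype.card K : ℝ) ^ M.natDegree := by gcongr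
        _ = (Fintype.card K : ℝ) ^ (N - j) := by
            rw [← pow_add]
            congr 1
            omega
    have h9 : (I.card : ℝ) * ((Fintype.card K : ℝ) ^ (H - j) / (4 * N) ^ (s + 1)) ≤
        I.card * ((Fintype.card K : ℝ) ^ (N - j) / (4 * N) ^ (s + 1) / Phi M 0) := by
      refine mul_le_mul_of_nonneg_left ?_ (Nat.cast_nonneg _)
      rw [div_right_comm]
      exact div_le_div_of_nonneg_right h8 (by positivity)
    have h10 : X * (Fintype.card K : ℝ) ^ (N - j) =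
        1 / 2 * (I.card * ((Fintype.card K : ℝ) ^ (N - j) / (4 * N) ^ (s + 1) / Phi M 0)) := by
      rw [hX]
      field_simp
    rw [h10]
    linarith
  obtain ⟨T, hT⟩ : ∃ T : ι → Finset (Σ _ : (Fin (s + 1) → ℕ), Σ _ : K[X], (Fin (s + 1) → K[X])),
      ∀ k, T k = 𝒜.sigma fun a => (Qc K M (N - ∑ i, a i)).sigma fun w =>
        (Fintype.piFinset fun i => Irn K (a i)).filter
          (fun P => M ∣ w * ∏ i, P i - S k) := ⟨_, fun k => rfl⟩
  have hTc : ∀ k, ((T k).card : ℝ) = ∑ a ∈ 𝒜, ∑ w ∈ Qc K M (N - ∑ i, a i),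
      (((Fintype.piFinset fun i => Irn K (a i)).filter
        (fun P => M ∣ w * ∏ i, P i - S k)).card : ℝ) := by
    intro k
    rw [hT, card_sigma]
    push_cast
    refine sum_congr rfl fun a _ => ?_
    rw [card_sigma]
    push_cast
    rfl
  have h1 : X * (Fintype.card K : ℝ) ^ N * ((l : ℝ) ^ s *
      ∑ d ∈ range l, ((Qc K M d).card : ℝ) / (Fintype.card K : ℝ) ^ d) ≤
      ∑ k ∈ I, ((T k).card : ℝ) := by
    have h2 := tuples (N := N) hl1 hBl (fun d => ((Qc K M d).card : ℝ) / (Fintype.card K : ℝ) ^ d)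
      (fun d => by positivity)
    rw [← h𝒜] at h2
    refine (mul_le_mul_of_nonneg_left h2 (by positivity)).trans ?_
    rw [sum_congr rfl (fun k _ => hTc k), sum_comm, mul_sum]
    refine sum_le_sum fun a ha => ?_
    rw [sum_comm]
    have h3 := sum_le_sum (hone a ha)
    rw [sum_const, nsmul_eq_mul] at h3
    refine le_trans (le_of_eq ?_) h3
    have h4 : (Fintype.card K : ℝ) ^ N = (Fintype.card K : ℝ) ^ (N - (N - ∑ i, a i)) *
        (Fintype.card K : ℝ) ^ (N - ∑ i, a i) := by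
      rw [← pow_add]
      congr 1
      omega
    rw [h4]
    field_simp
  have h2 := hphi M (l - 1) hM hMs
  rw [Nat.sub_add_cancel hl1] at h2
  have h2' : c * l * Phi M 0 / (Fintype.card K : ℝ) ^ M.natDegree ≤
      ∑ d ∈ range l, ((Qc K M d).card : ℝ) / (Fintype.card K : ℝ) ^ d := by
    refine le_trans (le_of_eq ?_) h2
    have : (((l - 1 : ℕ) : ℝ) + 1) = l := by
      have h3 : (l - 1) + 1 = l := Nat.sub_add_cancel hl1
      exact_mod_cast h3
    rw [this]
  have h3 : (I.card : ℝ) * (c * (ν / 8) ^ (s + 1) / 2 * (Fintype.card K : ℝ) ^ H) ≤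
      ∑ k ∈ I, ((T k).card : ℝ) := by
    refine le_trans ?_ (le_trans (mul_le_mul_of_nonneg_left (mul_le_mul_of_nonneg_left h2'
      (by positivity)) (by positivity)) h1)
    have e1 : (Fintype.card K : ℝ) ^ N = (Fintype.card K : ℝ) ^ H *
        (Fintype.card K : ℝ) ^ M.natDegree := by
      rw [← pow_add, hHM]
    have e2 : X * (Fintype.card K : ℝ) ^ N * ((l : ℝ) ^ s * (c * l * Phi M 0 /
        (Fintype.card K : ℝ) ^ M.natDegree)) =
        I.card * (c * (l : ℝ) ^ (s + 1) / (2 * (4 * N) ^ (s + 1)) * (Fintype.card K : ℝ) ^ H) := by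
      rw [e1, hX, pow_succ (l : ℝ) s]
      field_simp
    rw [e2]
    refine mul_le_mul_of_nonneg_left ?_ (Nat.cast_nonneg _)
    refine mul_le_mul_of_nonneg_right ?_ (by positivity)
    have e3 : c * (ν / 8) ^ (s + 1) / 2 = c * (ν / 2 * N) ^ (s + 1) / (2 * (4 * N) ^ (s + 1)) := by
      have : (ν / 2 * (N : ℝ)) ^ (s + 1) = (ν / 8) ^ (s + 1) * (4 * N) ^ (s + 1) := by
        rw [← mul_pow]
        congr 1
        ring
      rw [this]
      field_simp
    rw [e3]
    have h5 : (ν / 2 * (N : ℝ)) ^ (s + 1) ≤ (l : ℝ) ^ (s + 1) :=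
      pow_le_pow_left₀ (by positivity) hl _
    gcongr
  have h4 : ∑ k ∈ I, (c * (ν / 8) ^ (s + 1) / 2 * (Fintype.card K : ℝ) ^ H) ≤
      ∑ k ∈ I, ((T k).card : ℝ) := by
    rw [sum_const, nsmul_eq_mul]
    exact h3
  obtain ⟨k, hk, hkT⟩ := exists_le_of_sum_le hI h4
  refine ⟨k, hk, ?_⟩
  have h5 : (T k).card ≤ (SmC K N y M (S k)).card := by
    rw [hT]
    refine injC (B := B) (l := (s + 1) * l) (fun a ha => ?_) hup (by omega)
    obtain ⟨g1, g2, g3⟩ := hmem a ha
    exact ⟨g1, g2, by omega⟩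
  have h6 : ((T k).card : ℝ) ≤ ((SmC K N y M (S k)).card : ℝ) := by exact_mod_cast h5
  exact hkT.trans h6

end Pool.Agent.H694.AR
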